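import Pool.Agent.S04750

set_option autoImplicit false
set_option warn.classDefReducibility false
set_option linter.unusedSectionVars false

/-!
The two properties `Seq (co Δ_K) = P(K)` and `Ba (C_p(K)) = Ba (C_w(K))` of a compact Hausdorff
space `K` are not equivalent: for some `K` only the second one holds.

Signed Radon measures on `K` are given as continuous linear functionals on `C(K, ℝ)` (Riesz). The
space `K` is the one of the file `S04750` of the starting tree (`Helper882.Dirac`).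
-/

open Filter Topology

namespace Pool.Agent.Results.MP_4e1fb1_an.Disproof

/-- The Baire `σ`-algebra: the smallest one making all continuous real functions measurable. -/
def Ba (X : Type) (t : TopologicalSpace X) : MeasurableSpace X :=
  ⨆ (g : X → ℝ) (_ : @Continuous X ℝ t _ g), MeasurableSpace.comap g (borel ℝ)

/-- The topology of pointwise convergence on `C(K, ℝ)`. -/
def Cp (K : Type) [TopologicalSpace K] : TopologicalSpace C(K, ℝ) :=
  TopologicalSpace.induced (fun (f : C(K, ℝ)) (x : K) => f x) inferInstance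

variable (K : Type) [TopologicalSpace K] [CompactSpace K]

/-- The weak topology of the Banach space `C(K, ℝ)`. -/
def Cw : TopologicalSpace C(K, ℝ) :=
  ⨅ (φ : C(K, ℝ) →L[ℝ] ℝ), TopologicalSpace.induced (⇑φ) inferInstance

/-- The Dirac measures. -/
def Δ : Set (C(K, ℝ) →L[ℝ] ℝ) := {φ | ∃ x : K, ∀ f : C(K, ℝ), φ f = f x}

/-- The Radon probability measures: the positive functionals with the value one at the constant
function one. -/
def P : Set (C(K, ℝ) →L[ℝ] ℝ) := {φ | (∀ f : C(K, ℝ), 0 ≤ f → 0 ≤ φ f) ∧ φ 1 = 1}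

variable {K}

/-- The weak* limits of the weak* convergent sequences in `A`. -/
def Lim (A : Set (C(K, ℝ) →L[ℝ] ℝ)) : Set (C(K, ℝ) →L[ℝ] ℝ) :=
  {φ | ∃ u : ℕ → C(K, ℝ) →L[ℝ] ℝ, (∀ n, u n ∈ A) ∧
    ∀ f : C(K, ℝ), Tendsto (fun n => u n f) atTop (𝓝 (φ f))}

/-- `Seq^α (A)`: `A` for `α = 0`, the limits of sequences in `Seq^β (A)` for `α = β + 1`, the union of
the earlier ones for limit ordinals. -/
noncomputable def SeqLevel (A : Set (C(K, ℝ) →L[ℝ] ℝ)) (α : Ordinal.{0}) :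
    Set (C(K, ℝ) →L[ℝ] ℝ) :=
  Ordinal.limitRecOn α A (fun _ S => Lim S) (fun l _ S => ⋃ (b : Ordinal.{0}) (h : b < l), S b h)

/-- `Seq (A)`, the union of the `Seq^α (A)` over the countable ordinals `α`. -/
noncomputable def Seq (A : Set (C(K, ℝ) →L[ℝ] ℝ)) : Set (C(K, ℝ) →L[ℝ] ℝ) :=
  ⋃ (α : Ordinal.{0}) (_ : α < (Cardinal.aleph 1).ord), SeqLevel A α

/-- The smallest weak* sequentially closed set that contains `A`. -/
def SeqClosure (A : Set (C(K, ℝ) →L[ℝ] ℝ)) : Set (C(K, ℝ) →L[ℝ] ℝ) :=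
  ⋂₀ {S | A ⊆ S ∧ Lim S ⊆ S}

theorem level_subset {A S : Set (C(K, ℝ) →L[ℝ] ℝ)} (hA : A ⊆ S) (hS : Lim S ⊆ S)
    (α : Ordinal.{0}) : SeqLevel A α ⊆ S := by
  unfold SeqLevel
  induction α using Ordinal.limitRecOn with
  | zero => rw [Ordinal.limitRecOn_zero]; exact hA
  | add_one β ih =>
    rw [Ordinal.limitRecOn_add_one]
    rintro φ ⟨u, hu, hl⟩
    exact hS ⟨u, fun n => ih (hu n), hl⟩
  | limit l hl ih =>
    rw [Ordinal.limitRecOn_limit (h := hl)]
    exact Set.iUnion₂_subset fun b hb => ih b hb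

theorem seq_subset (A : Set (C(K, ℝ) →L[ℝ] ℝ)) : Seq A ⊆ SeqClosure A :=
  Set.iUnion₂_subset fun α _ => Set.subset_sInter fun _ hS => level_subset hS.1 hS.2 α

theorem dirac_subset : convexHull ℝ (Δ K) ⊆ P K := by
  refine convexHull_min ?_ ?_
  · rintro φ ⟨x, hx⟩
    refine ⟨fun f hf => ?_, ?_⟩
    · rw [hx]; exact hf x
    · rw [hx]; rfl
  · rintro φ ⟨h1, h2⟩ ψ ⟨h3, h4⟩ a b ha hb hab
    refine ⟨fun f hf => ?_, ?_⟩
    · change 0 ≤ a * φ f + b * ψ f
      exact add_nonneg (mul_nonneg ha (h1 f hf)) (mul_nonneg hb (h3 f hf))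
    · change a * φ 1 + b * ψ 1 = 1
      rw [h2, h4, mul_one, mul_one, hab]

theorem lim_P : Lim (P K) ⊆ P K := by
  rintro φ ⟨u, hu, hl⟩
  refine ⟨fun f hf => ge_of_tendsto' (hl f) fun n => (hu n).1 f hf, ?_⟩
  refine tendsto_nhds_unique (hl 1) ?_
  simp only [(hu _).2]
  exact tendsto_const_nhds

/-- **There is a compact Hausdorff space `K` with `Ba (C_p(K)) = Ba (C_w(K))` for which
`Seq (co Δ_K)` (the union of the `Seq^α (co Δ_K)`, `α < ω₁`; also the smallest weak* sequentially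
closed set containing `co Δ_K`) is not `P(K)`. So the two properties are not equivalent.** -/
theorem result :
    (∃ (K : Type) (_ : TopologicalSpace K) (_ : CompactSpace K) (_ : T2Space K),
      Ba C(K, ℝ) (Cp K) = Ba C(K, ℝ) (Cw K) ∧
      Seq (convexHull ℝ (Δ K)) ≠ P K ∧ SeqClosure (convexHull ℝ (Δ K)) ≠ P K) ∧
    ¬ ∀ (K : Type) [TopologicalSpace K] [CompactSpace K] [T2Space K],
      (Seq (convexHull ℝ (Δ K)) = P K ↔ Ba C(K, ℝ) (Cp K) = Ba C(K, ℝ) (Cw K)) := by
  have key : ∃ (K : Type) (_ : TopologicalSpace K) (_ : CompactSpace K) (_ : T2Space K),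
      Ba C(K, ℝ) (Cp K) = Ba C(K, ℝ) (Cw K) ∧
      Seq (convexHull ℝ (Δ K)) ≠ P K ∧ SeqClosure (convexHull ℝ (Δ K)) ≠ P K := by
    by_contra hno
    apply Pool.Agent.S04750.result
    intro K _ _ _ hBa
    have hcl : SeqClosure (convexHull ℝ (Δ K)) = P K := by
      by_contra h2
      apply hno
      refine ⟨K, inferInstance, inferInstance, inferInstance, hBa, fun h1 => h2 ?_, h2⟩
      refine le_antisymm ?_ ?_
      · exact Set.sInter_subset_of_mem ⟨dirac_subset, lim_P⟩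
      · rw [← h1]; exact seq_subset _
    rw [show {φ : C(K, ℝ) →L[ℝ] ℝ | (∀ f : C(K, ℝ), 0 ≤ f → 0 ≤ φ f) ∧ φ 1 = 1} = P K from rfl,
      ← hcl]
    unfold SeqClosure
    congr 1
    ext S
    constructor
    · rintro ⟨h1, h2⟩
      refine ⟨h1, ?_⟩
      rintro φ ⟨u, hu, hl⟩
      exact h2 u φ hu hl
    · rintro ⟨h1, h2⟩
      exact ⟨h1, fun u φ hu hl => h2 ⟨u, hu, hl⟩⟩
  refine ⟨key, fun h => ?_⟩
  obtain ⟨K, _, _, _, h1, h2, -⟩ := key
  exact h2 ((h K).2 h1)

end Pool.Agent.Results.MP_4e1fb1_an.Disproof
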